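import Mathlib
import Pool.Agent.W_f4b591.Nil
import Pool.Agent.W_f4b591.Fin

namespace Pool.Agent.Results.MP_f4b591_gt.TwoStepNil

open Pool.Agent.W_f4b591

/-- Big balls in closed integral symplectic two-step nilmanifolds: the polydisc of radius `√2`,
hence the ball of radius `√2`, embeds symplectically in `Γ \ (V, mul B)`. -/
theorem result {V : Type} [NormedAddCommGroup V] [NormedSpace ℝ V] [FiniteDimensional ℝ V]
    {n : ℕ} (hdim : Module.finrank ℝ V = 2 * n)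
    (B : V →L[ℝ] V →L[ℝ] V) (hB : TwoStep B)
    (Γ : Set V) (hΓ : Lattice B Γ)
    (σ : V →L[ℝ] V →L[ℝ] ℝ) (hσ : Symplectic B σ)
    (hint : ∀ γ ∈ Γ, ∀ δ ∈ Γ, B γ δ = 0 → ∃ k : ℤ, σ γ δ = k * (2 * Real.pi)) :
    ∃ F : EuclideanSpace ℂ (Fin n) → V,
      ContDiffOn ℝ ((⊤ : ℕ∞) : WithTop ℕ∞) F {z | ∀ j, ‖z j‖ < Real.sqrt 2} ∧
      (∀ z, (∀ j, ‖z j‖ < Real.sqrt 2) → ∀ u v,
        form B σ (F z) (fderiv ℝ F z u) (fderiv ℝ F z v) =
          ∑ j, ((u j).re * (v j).im - (u j).im * (v j).re)) ∧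
      (∀ z w, (∀ j, ‖z j‖ < Real.sqrt 2) → (∀ j, ‖w j‖ < Real.sqrt 2) → ∀ γ ∈ Γ,
        mul B γ (F z) = F w → z = w) :=
  main hdim hB hΓ hσ hint

end Pool.Agent.Results.MP_f4b591_gt.TwoStepNil
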